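import Pool.Agent.helper42.NS.Spec

namespace Pool.Agent.helper42.NS

open Polynomial Matrix

theorem EXR_kil (h1 : KIL_stmt) (P : Pt) (t : ℕ) (H : Matrix (Fin t) (Fin t) ℤ) (k : ℕ) :
    Set.ncard {B : Fin k → Fin t → Bool | Bad P H B} * 2 ^ k ≤
      (2 ^ crk P H - 1) * 2 ^ (t * k) := by
  haveI := P.isMaximal
  letI : Field (KP P) := Ideal.Quotient.field P.asIdeal
  exact h1 (KP P) t (EigK (KP P) (lamP P) H) k

theorem EXR_bad (P : Pt) (t : ℕ) (H : Matrix (Fin t) (Fin t) ℤ) (k : ℕ)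
    (B : Fin k → Fin t → Bool) (h : Bad P H B) : crk P H ≠ 0 := by
  haveI := P.isMaximal
  letI : Field (KP P) := Ideal.Quotient.field P.asIdeal
  obtain ⟨u, hu, hu0, -⟩ := h
  have h3 : Module.finrank (KP P) (EigK (KP P) (lamP P) H) ≠ 0 := by
    haveI : Nontrivial (EigK (KP P) (lamP P) H) :=
      ⟨⟨⟨u, hu⟩, 0, fun h => hu0 (congrArg Subtype.val h)⟩⟩
    exact (Module.finrank_pos).ne'
  exact h3

theorem EXR (h1 : KIL_stmt) (h2 : PTP_stmt) : EXR_stmt := by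
  intro t L H hsym ht hc
  by_contra hcon
  push Not at hcon
  -- the finite set of the relevant points
  have hfin : Set.Finite {P : Pt | Above 2 P ∧ crk P H ≠ 0} := by
    by_contra hinf
    obtain ⟨s, hs, hcard⟩ := Set.Infinite.exists_subset_card_eq (s := {P : Pt | Above 2 P ∧ crk P H ≠ 0})
      hinf (t + 1)
    have := h2 t H 2 Nat.prime_two hsym s (fun P hP => hs hP)
    omega
  obtain ⟨F, hF⟩ := hfin.exists_finset_coe
  have hFm : ∀ P, P ∈ F ↔ (Above 2 P ∧ crk P H ≠ 0) := by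
    intro P
    rw [← Finset.mem_coe, hF]
    rfl
  have hFc : F.card ≤ t := h2 t H 2 Nat.prime_two hsym F (fun P hP => (hFm P).1 hP)
  have hcov : (Set.univ : Set (Fin (3 * L + 3) → Fin t → Bool)) ⊆
      ⋃ P ∈ F, {B : Fin (3 * L + 3) → Fin t → Bool | Bad P H B} := by
    intro B _
    obtain ⟨P, hP, hB⟩ := hcon B
    rw [Set.mem_iUnion₂]
    exact ⟨P, (hFm P).2 ⟨hP, EXR_bad P t H _ B hB⟩, hB⟩
  have hcard : 2 ^ (t * (3 * L + 3)) ≤
      ∑ P ∈ F, Set.ncard {B : Fin (3 * L + 3) → Fin t → Bool | Bad P H B} := by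
    have h3 : (Set.univ : Set (Fin (3 * L + 3) → Fin t → Bool)).ncard = 2 ^ (t * (3 * L + 3)) := by
      rw [Set.ncard_univ, Nat.card_eq_fintype_card]
      simp only [Fintype.card_fun, Fintype.card_bool, Fintype.card_fin]
      rw [← pow_mul]
    rw [← h3]
    refine (Set.ncard_le_ncard hcov (Set.toFinite _)).trans ?_
    exact Finset.set_ncard_biUnion_le F _
  have hmul : 2 ^ (t * (3 * L + 3)) * 2 ^ (3 * L + 3) ≤
      t * (2 ^ (2 * L + 2) * 2 ^ (t * (3 * L + 3))) := by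
    calc 2 ^ (t * (3 * L + 3)) * 2 ^ (3 * L + 3)
        ≤ (∑ P ∈ F, Set.ncard {B : Fin (3 * L + 3) → Fin t → Bool | Bad P H B}) *
            2 ^ (3 * L + 3) := Nat.mul_le_mul_right _ hcard
      _ = ∑ P ∈ F, Set.ncard {B : Fin (3 * L + 3) → Fin t → Bool | Bad P H B} *
            2 ^ (3 * L + 3) := Finset.sum_mul _ _ _
      _ ≤ ∑ P ∈ F, 2 ^ (2 * L + 2) * 2 ^ (t * (3 * L + 3)) := by
          refine Finset.sum_le_sum fun P hP => ?_
          refine (EXR_kil h1 P t H (3 * L + 3)).trans (Nat.mul_le_mul_right _ ?_)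
          have h4 := hc P ((hFm P).1 hP).1
          have h5 : 2 ^ crk P H ≤ 2 ^ (2 * L + 2) := Nat.pow_le_pow_right (by norm_num) h4
          exact (Nat.sub_le _ _).trans h5
      _ = F.card * (2 ^ (2 * L + 2) * 2 ^ (t * (3 * L + 3))) := by
          rw [Finset.sum_const, smul_eq_mul]
      _ ≤ t * (2 ^ (2 * L + 2) * 2 ^ (t * (3 * L + 3))) := Nat.mul_le_mul_right _ hFc
  have h6 : t * (2 ^ (2 * L + 2) * 2 ^ (t * (3 * L + 3))) ≤
      2 ^ (t * (3 * L + 3)) * 2 ^ (3 * L + 2) := by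
    calc t * (2 ^ (2 * L + 2) * 2 ^ (t * (3 * L + 3)))
        ≤ 2 ^ L * (2 ^ (2 * L + 2) * 2 ^ (t * (3 * L + 3))) := Nat.mul_le_mul_right _ ht
      _ = 2 ^ (t * (3 * L + 3)) * 2 ^ (3 * L + 2) := by
          rw [show 3 * L + 2 = L + (2 * L + 2) by ring, pow_add 2 L (2 * L + 2)]
          ring
  have h7 : 2 ^ (t * (3 * L + 3)) * 2 ^ (3 * L + 3) ≤ 2 ^ (t * (3 * L + 3)) * 2 ^ (3 * L + 2) :=
    hmul.trans h6
  have h8 : 2 ^ (3 * L + 3) ≤ 2 ^ (3 * L + 2) :=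
    Nat.le_of_mul_le_mul_left h7 (by positivity)
  have h9 : 2 ^ (3 * L + 3) = 2 * 2 ^ (3 * L + 2) := by rw [pow_succ]; ring
  have h10 : 0 < 2 ^ (3 * L + 2) := by positivity
  omega

end Pool.Agent.helper42.NS
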