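import Pool.Agent.helper42.NS.Spec2
import Pool.Agent.helper38.NS.CNT

set_option autoImplicit false

/-!
# Row nos2:R2E: counting for fixed `p, S, g`
-/

namespace Pool.Agent.helper42.NS

open Polynomial Matrix

theorem R2E_coset {F : Type} [Field F] {t : ℕ} (V : Submodule F (Fin t → F)) (v₀ : Fin t → F) :
    Set.ncard {b : Fin t → Bool | (fun j => if b j then (1 : F) else 0) - v₀ ∈ V} ≤
      2 ^ Module.finrank F V := by
  classical
  let v : Fin t → Module.Dual F V := fun i =>
    (LinearMap.proj (R := F) (φ := fun _ : Fin t => F) i).domRestrict V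
  obtain ⟨κ, a, ha, hspan, hli⟩ := exists_linearIndependent' F v
  haveI : Finite κ := Finite.of_injective a ha
  haveI := Fintype.ofFinite κ
  have hκ : Fintype.card κ ≤ Module.finrank F V := by
    have := hli.fintype_card_le_finrank
    rwa [Subspace.dual_finrank_eq] at this
  have hz : ∀ x ∈ V, (∀ k, x (a k) = 0) → x = 0 := by
    intro x hx h
    have h1 : ∀ φ ∈ Submodule.span F (Set.range (v ∘ a)), φ ⟨x, hx⟩ = 0 := by
      intro φ hφ
      induction hφ using Submodule.span_induction with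
      | mem φ h2 =>
        obtain ⟨k, rfl⟩ := h2
        exact h k
      | zero => rfl
      | add φ ψ _ _ h3 h4 => rw [LinearMap.add_apply, h3, h4, add_zero]
      | smul c φ _ h3 => rw [LinearMap.smul_apply, h3, smul_zero]
    funext i
    have h2 : v i ∈ Submodule.span F (Set.range (v ∘ a)) := by
      rw [hspan]
      exact Submodule.subset_span ⟨i, rfl⟩
    exact h1 _ h2
  have h1 : Set.ncard {b : Fin t → Bool | (fun j => if b j then (1 : F) else 0) - v₀ ∈ V} ≤
      Set.ncard (Set.univ : Set (κ → Bool)) := by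
    apply Set.ncard_le_ncard_of_injOn (fun b k => b (a k)) (fun _ _ => Set.mem_univ _)
    intro b hb b' hb' h
    have h2 : (fun j => if b j then (1 : F) else 0) - (fun j => if b' j then (1 : F) else 0) ∈
        V := by
      have := V.sub_mem hb hb'
      rwa [sub_sub_sub_cancel_right] at this
    have h3 := hz _ h2 (fun k => by
      have h4 : b (a k) = b' (a k) := congrFun h k
      show (if b (a k) then (1 : F) else 0) - (if b' (a k) then (1 : F) else 0) = 0
      rw [h4, sub_self])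
    funext j
    have h5 : (if b j then (1 : F) else 0) - (if b' j then (1 : F) else 0) = 0 := congrFun h3 j
    cases hb1 : b j <;> cases hb2 : b' j <;> simp [hb1, hb2] at h5 ⊢
  rw [Set.ncard_univ, Nat.card_eq_fintype_card, Fintype.card_fun, Fintype.card_bool] at h1
  exact h1.trans (Nat.pow_le_pow_right (by norm_num) hκ)

theorem R2E_graphs (t : ℕ) :
    Set.ncard {H : Matrix (Fin t) (Fin t) ℤ | IsGr H} ≤ 2 ^ (t.choose 2) := by
  induction t with
  | zero =>
    rw [Nat.choose_zero_succ, pow_zero]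
    exact Set.ncard_le_one_of_subsingleton _
  | succ t ih =>
    have h1 : Set.ncard {H : Matrix (Fin (t + 1)) (Fin (t + 1)) ℤ | IsGr H} ≤
        Set.ncard ({H : Matrix (Fin t) (Fin t) ℤ | IsGr H} ×ˢ
          (Set.univ : Set (Fin t → Bool))) := by
      apply Set.ncard_le_ncard_of_injOn
        (fun H => (tl H, fun j : Fin t => decide (H 0 j.succ = 1))) ?_ ?_
        (Set.Finite.prod (CNT_fin t) Set.finite_univ)
      · intro H hH
        exact ⟨⟨fun i j => hH.1 _ _, fun i => hH.2.1 _, fun i j => hH.2.2 _ _⟩, Set.mem_univ _⟩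
      · intro H hH H' hH' h
        have e1 : tl H = tl H' := congrArg Prod.fst h
        have e2 : ∀ j : Fin t, decide (H 0 j.succ = 1) = decide (H' 0 j.succ = 1) := fun j =>
          congrFun (congrArg Prod.snd h) j
        have e3 : ∀ j : Fin t, H 0 j.succ = H' 0 j.succ := by
          intro j
          have h2 := e2 j
          rw [decide_eq_decide] at h2
          rcases hH.1 0 j.succ with h3 | h3 <;> rcases hH'.1 0 j.succ with h4 | h4
          · rw [h3, h4]
          · exact h2.2 h4 ▸ h4.symm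
          · exact h3.trans (h2.1 h3).symm
          · rw [h3, h4]
        ext i j
        refine Fin.cases ?_ (fun i => ?_) i
        · refine Fin.cases ?_ (fun j => ?_) j
          · rw [hH.2.1 0, hH'.2.1 0]
          · exact e3 j
        · refine Fin.cases ?_ (fun j => ?_) j
          · rw [hH.2.2, hH'.2.2 i.succ]
            exact e3 i
          · exact congrFun (congrFun e1 i) j
    have hc : (t + 1).choose 2 = t.choose 2 + t := by
      rw [Nat.choose_succ_succ' t 1, Nat.choose_one_right, add_comm]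
    rw [Set.ncard_prod, Set.ncard_univ, Nat.card_eq_fintype_card, Fintype.card_fun,
      Fintype.card_bool, Fintype.card_fin] at h1
    rw [hc, pow_add]
    exact h1.trans (Nat.mul_le_mul_right _ ih)

/-- `H` and `H'` agree apart from the edges between `s` and the outside of `S` -/
def R2E_agree {t : ℕ} (S : Finset (Fin t)) (s : Fin t) (H H' : Matrix (Fin t) (Fin t) ℤ) : Prop :=
  ∀ i j, ¬ (i = s ∧ j ∉ S) → ¬ (j = s ∧ i ∉ S) → H i j = H' i j

theorem R2E_fiber (h1 : R2B_stmt) (h2 : R2D_stmt) {t p D C : ℕ} {S : Finset (Fin t)} {s : Fin t}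
    {g : Fin t → (ZMod p)[X]} (hp : p.Prime) (hs : s ∈ S) (hg : g s ≠ 0)
    (hD : ∀ s, (g s).degree < D) (G' : Matrix (Fin t) (Fin t) ℤ) :
    Set.ncard {H : Matrix (Fin t) (Fin t) ℤ | (IsGr H ∧ (∀ P : Pt, Above p P → crk P H ≤ C) ∧
      Rel p H S g) ∧ R2E_agree S s H G'} ≤ 2 ^ (D * (C + 2 * S.card)) := by
  classical
  haveI := Fact.mk hp
  set T : Set (Matrix (Fin t) (Fin t) ℤ) := {H : Matrix (Fin t) (Fin t) ℤ | (IsGr H ∧
    (∀ P : Pt, Above p P → crk P H ≤ C) ∧ Rel p H S g) ∧ R2E_agree S s H G'} with hT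
  rcases T.eq_empty_or_nonempty with h0 | ⟨H₀, hH₀⟩
  · rw [h0, Set.ncard_empty]
    exact Nat.zero_le _
  set V : Submodule (ZMod p) (Fin t → ZMod p) := LinearMap.ker (Matrix.mulVecLin
    (Polynomial.aeval ((zerZ H₀ S).map (fun z : ℤ => (z : ZMod p))) (g s))) with hV
  have hVd : Module.finrank (ZMod p) V ≤ D * (C + 2 * S.card) := by
    have h3 := h1 t p (C + 2 * S.card) (zerZ H₀ S) (g s)
      (fun P hP => (h2 t P H₀ S).trans (Nat.add_le_add_right (hH₀.1.2.1 P hP) _)) hg
    refine h3.trans (Nat.mul_le_mul_right _ ?_)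
    have h4 := hD s
    rw [Polynomial.degree_eq_natDegree hg] at h4
    exact_mod_cast h4.le
  have hmap : (zerZ H₀ S).map (fun z : ℤ => (z : ZMod p)) = zer p H₀ S := by
    ext i j
    show (((if i ∈ S ∨ j ∈ S then 0 else H₀ i j : ℤ)) : ZMod p) =
      if i ∈ S ∨ j ∈ S then 0 else (H₀ i j : ZMod p)
    split_ifs
    · exact Int.cast_zero
    · rfl
  have hag : ∀ H ∈ T, R2E_agree S s H H₀ := fun H hH i j h3 h4 =>
    (hH.2 i j h3 h4).trans (hH₀.2 i j h3 h4).symm
  have hzer : ∀ H ∈ T, zer p H S = zer p H₀ S := by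
    intro H hH
    ext i j
    show (if i ∈ S ∨ j ∈ S then 0 else (H i j : ZMod p)) =
      if i ∈ S ∨ j ∈ S then 0 else (H₀ i j : ZMod p)
    split_ifs with h3
    · rfl
    · rw [not_or] at h3
      rw [hag H hH i j (fun h => h3.1 (h.1 ▸ hs)) (fun h => h3.2 (h.1 ▸ hs))]
  have hcol : ∀ H ∈ T, ∀ s' ∈ S, s' ≠ s → colS p H S s' = colS p H₀ S s' := by
    intro H hH s' hs' hne
    funext j
    show (if j ∈ S then 0 else (H j s' : ZMod p)) = if j ∈ S then 0 else (H₀ j s' : ZMod p)
    split_ifs with h3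
    · rfl
    · rw [hag H hH j s' (fun h => h3 (h.1 ▸ hs)) (fun h => hne h.1)]
  have hdiff : ∀ H ∈ T, colS p H S s - colS p H₀ S s ∈ V := by
    intro H hH
    have h3 : Rel p H S g := hH.1.2.2
    have h4 : Rel p H₀ S g := hH₀.1.2.2
    unfold Rel at h3 h4
    rw [hzer H hH, ← Finset.add_sum_erase S _ hs] at h3
    rw [← Finset.add_sum_erase S _ hs] at h4
    have h5 : ∑ x ∈ S.erase s, ((Polynomial.aeval (zer p H₀ S)) (g x)).mulVec (colS p H S x) =
        ∑ x ∈ S.erase s, ((Polynomial.aeval (zer p H₀ S)) (g x)).mulVec (colS p H₀ S x) := by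
      apply Finset.sum_congr rfl
      intro x hx
      rw [hcol H hH x (Finset.mem_of_mem_erase hx) (Finset.ne_of_mem_erase hx)]
    rw [h5] at h3
    rw [hV, LinearMap.mem_ker, Matrix.mulVecLin_apply, Matrix.mulVec_sub, sub_eq_zero, hmap]
    exact add_right_cancel (h3.trans h4.symm)
  have hb : ∀ H ∈ T, colS p H S s =
      fun j => if (decide (j ∉ S ∧ H j s = 1)) = true then (1 : ZMod p) else 0 := by
    intro H hH
    funext j
    show (if j ∈ S then 0 else (H j s : ZMod p)) =
      if (decide (j ∉ S ∧ H j s = 1)) = true then (1 : ZMod p) else 0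
    by_cases h3 : j ∈ S
    · rw [if_pos h3, if_neg]
      rw [decide_eq_true_eq]
      exact fun h => h.1 h3
    · rw [if_neg h3]
      rcases hH.1.1.1 j s with h4 | h4
      · rw [h4, if_neg, Int.cast_zero]
        rw [decide_eq_true_eq]
        exact fun h => absurd h.2 (by norm_num)
      · rw [h4, if_pos, Int.cast_one]
        rw [decide_eq_true_eq]
        exact ⟨h3, rfl⟩
  refine le_trans ?_ ((R2E_coset V (colS p H₀ S s)).trans
    (Nat.pow_le_pow_right (by norm_num) hVd))
  apply Set.ncard_le_ncard_of_injOn (fun H j => decide (j ∉ S ∧ H j s = 1))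
  · intro H hH
    show (fun j => if (decide (j ∉ S ∧ H j s = 1)) = true then (1 : ZMod p) else 0) -
      colS p H₀ S s ∈ V
    rw [← hb H hH]
    exact hdiff H hH
  · intro H hH H' hH' h
    have e1 : ∀ j, j ∉ S → H j s = H' j s := by
      intro j hj
      have h3 : decide (j ∉ S ∧ H j s = 1) = decide (j ∉ S ∧ H' j s = 1) := congrFun h j
      rw [decide_eq_decide] at h3
      rcases hH.1.1.1 j s with h4 | h4 <;> rcases hH'.1.1.1 j s with h5 | h5
      · rw [h4, h5]
      · have h6 := (h3.2 ⟨hj, h5⟩).2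
        rw [h6, h5]
      · have h6 := (h3.1 ⟨hj, h4⟩).2
        rw [h6, h4]
      · rw [h4, h5]
    ext i j
    by_cases h3 : i = s ∧ j ∉ S
    · rw [h3.1, hH.1.1.2.2 s j, hH'.1.1.2.2 s j]
      exact e1 j h3.2
    · by_cases h4 : j = s ∧ i ∉ S
      · rw [h4.1]
        exact e1 i h4.2
      · exact (hag H hH i j h3 h4).trans (hag H' hH' i j h3 h4).symm

/-- replace the edges between `s` and the outside of `S` by `b` -/
def R2E_rep {t : ℕ} (S : Finset (Fin t)) (s : Fin t) (H : Matrix (Fin t) (Fin t) ℤ)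
    (b : (Sᶜ : Finset (Fin t)) → Bool) : Matrix (Fin t) (Fin t) ℤ :=
  Matrix.of fun i j =>
    if i = s then (if hj : j ∈ (Sᶜ : Finset (Fin t)) then (if b ⟨j, hj⟩ then 1 else 0) else H i j)
    else if j = s then
      (if hi : i ∈ (Sᶜ : Finset (Fin t)) then (if b ⟨i, hi⟩ then 1 else 0) else H i j)
    else H i j

theorem R2E (h1 : R2B_stmt) (h2 : R2D_stmt) : R2E_stmt := by
  classical
  intro t p D C S s g hp hs hg hD
  set n : ℕ := 2 ^ (D * (C + 2 * S.card)) with hn
  unfold cnt
  set A : Matrix (Fin t) (Fin t) ℤ → Prop := fun H =>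
    (∀ P : Pt, Above p P → crk P H ≤ C) ∧ Rel p H S g with hA
  have fA : {H : Matrix (Fin t) (Fin t) ℤ | IsGr H ∧ A H}.Finite :=
    (CNT_fin t).subset fun H h => h.1
  rw [Set.ncard_eq_toFinset_card _ fA]
  have hgr := R2E_graphs t
  rw [Set.ncard_eq_toFinset_card _ (CNT_fin t)] at hgr
  set 𝒜 := fA.toFinset with h𝒜
  set 𝒢 := (CNT_fin t).toFinset with h𝒢
  have m1 : ∀ H, H ∈ 𝒜 ↔ IsGr H ∧ A H := fun H => by
    rw [h𝒜, Set.Finite.mem_toFinset]; exact Iff.rfl
  have m2 : ∀ H, H ∈ 𝒢 ↔ IsGr H := fun H => by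
    rw [h𝒢, Set.Finite.mem_toFinset]; exact Iff.rfl
  have hsc : s ∉ (Sᶜ : Finset (Fin t)) := fun h => (Finset.mem_compl.1 h) hs
  set f : Matrix (Fin t) (Fin t) ℤ × ((Sᶜ : Finset (Fin t)) → Bool) →
    Matrix (Fin t) (Fin t) ℤ := fun x => R2E_rep S s x.1 x.2 with hf
  set U : Finset (Matrix (Fin t) (Fin t) ℤ × ((Sᶜ : Finset (Fin t)) → Bool)) :=
    𝒜 ×ˢ Finset.univ with hU
  have hcard : U.card = 𝒜.card * 2 ^ (t - S.card) := by
    rw [hU, Finset.card_product, Finset.card_univ, Fintype.card_fun, Fintype.card_bool,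
      Fintype.card_coe, Finset.card_compl, Fintype.card_fin]
  -- values of rep
  have r1 : ∀ (H : Matrix (Fin t) (Fin t) ℤ) (b : (Sᶜ : Finset (Fin t)) → Bool) (j : Fin t)
      (hj : j ∈ (Sᶜ : Finset (Fin t))), R2E_rep S s H b s j = if b ⟨j, hj⟩ then 1 else 0 := by
    intro H b j hj
    show (if s = s then _ else _) = _
    rw [if_pos rfl, dif_pos hj]
  have r2 : ∀ (H : Matrix (Fin t) (Fin t) ℤ) (b : (Sᶜ : Finset (Fin t)) → Bool) (i : Fin t)
      (hi : i ∈ (Sᶜ : Finset (Fin t))), R2E_rep S s H b i s = if b ⟨i, hi⟩ then 1 else 0 := by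
    intro H b i hi
    show (if i = s then _ else _) = _
    have hne : i ≠ s := by
      rintro rfl
      exact hsc hi
    rw [if_neg hne, if_pos rfl, dif_pos hi]
  have r3 : ∀ (H : Matrix (Fin t) (Fin t) ℤ) (b : (Sᶜ : Finset (Fin t)) → Bool),
      R2E_agree S s (R2E_rep S s H b) H := by
    intro H b i j h3 h4
    show (if i = s then _ else _) = _
    by_cases hi : i = s
    · rw [if_pos hi, dif_neg]
      intro hj
      exact h3 ⟨hi, Finset.mem_compl.1 hj⟩
    · rw [if_neg hi]
      by_cases hj : j = s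
      · rw [if_pos hj, dif_neg]
        intro hi'
        exact h4 ⟨hj, Finset.mem_compl.1 hi'⟩
      · rw [if_neg hj]
  have hgrf : ∀ x ∈ U, f x ∈ 𝒢 := by
    rintro ⟨H, b⟩ hx
    rw [hU, Finset.mem_product, m1] at hx
    have hH : IsGr H := hx.1.1
    rw [m2]
    show IsGr (R2E_rep S s H b)
    refine ⟨?_, ?_, ?_⟩
    · intro i j
      by_cases h3 : i = s ∧ j ∉ S
      · rw [h3.1, r1 H b j (Finset.mem_compl.2 h3.2)]
        split_ifs
        · exact Or.inr rfl
        · exact Or.inl rfl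
      · by_cases h4 : j = s ∧ i ∉ S
        · rw [h4.1, r2 H b i (Finset.mem_compl.2 h4.2)]
          split_ifs
          · exact Or.inr rfl
          · exact Or.inl rfl
        · rw [r3 H b i j h3 h4]
          exact hH.1 i j
    · intro i
      rw [r3 H b i i (fun h => h.2 (h.1 ▸ hs)) (fun h => h.2 (h.1 ▸ hs))]
      exact hH.2.1 i
    · intro i j
      by_cases h3 : i = s ∧ j ∉ S
      · rw [h3.1, r1 H b j (Finset.mem_compl.2 h3.2), r2 H b j (Finset.mem_compl.2 h3.2)]
      · by_cases h4 : j = s ∧ i ∉ S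
        · rw [h4.1, r2 H b i (Finset.mem_compl.2 h4.2), r1 H b i (Finset.mem_compl.2 h4.2)]
        · rw [r3 H b i j h3 h4, r3 H b j i h4 h3]
          exact hH.2.2 i j
  have hfib : ∀ G' ∈ U.image f, (U.filter fun x => f x = G').card ≤ n := by
    intro G' _
    have h3 := R2E_fiber h1 h2 (C := C) hp hs hg hD G'
    refine le_trans ?_ h3
    have fT : {H : Matrix (Fin t) (Fin t) ℤ | (IsGr H ∧ (∀ P : Pt, Above p P → crk P H ≤ C) ∧
      Rel p H S g) ∧ R2E_agree S s H G'}.Finite := (CNT_fin t).subset fun H h => h.1.1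
    rw [Set.ncard_eq_toFinset_card _ fT]
    refine Finset.card_le_card_of_injOn (fun x => x.1) ?_ ?_
    · rintro ⟨H, b⟩ hx
      rw [Finset.mem_coe, Finset.mem_filter, hU, Finset.mem_product, m1] at hx
      rw [Finset.mem_coe, Set.Finite.mem_toFinset]
      refine ⟨⟨hx.1.1.1, hx.1.1.2⟩, ?_⟩
      intro i j h4 h5
      have h6 := r3 H b i j h4 h5
      have h7 : R2E_rep S s H b = G' := hx.2
      rw [h7] at h6
      exact h6.symm
    · rintro ⟨H, b⟩ hx ⟨H', b'⟩ hx' h
      have h' : H = H' := h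
      rw [Finset.mem_coe, Finset.mem_filter] at hx hx'
      have h7 : R2E_rep S s H b = G' := hx.2
      have h8 : R2E_rep S s H' b' = G' := hx'.2
      have h9 : b = b' := by
        funext j
        have h10 : R2E_rep S s H b s j = R2E_rep S s H' b' s j := by rw [h7, h8]
        rw [r1 H b j j.2, r1 H' b' j j.2] at h10
        cases hb1 : b j <;> cases hb2 : b' j
        · rfl
        · simp [hb1, hb2] at h10
        · simp [hb1, hb2] at h10
        · rfl
      rw [h', h9]
  have h5 := Finset.card_le_mul_card_image U n hfib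
  have h6 : (U.image f).card ≤ 𝒢.card := by
    apply Finset.card_le_card
    intro G' hG'
    obtain ⟨x, hx, rfl⟩ := Finset.mem_image.1 hG'
    exact hgrf x hx
  rw [hcard] at h5
  calc 𝒜.card * 2 ^ (t - S.card) ≤ n * (U.image f).card := h5
    _ ≤ n * 2 ^ (t.choose 2) := Nat.mul_le_mul_left _ (h6.trans hgr)
    _ = 2 ^ (t.choose 2) * n := by ring

end Pool.Agent.helper42.NS
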